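import Pool.Agent.H626.SE.Orient

/-!
# MP_c36330_co: a lower bound for the positive square energy of maximal planar graphs
-/

set_option autoImplicit false

namespace Pool.Agent.Results.MP_c36330_co.SparseLowerBound

open Pool.Agent.H626.SE

theorem herm {V : Type*} [Fintype V] [DecidableEq V] (G : SimpleGraph V) [DecidableRel G.Adj] :
    (G.adjMatrix ℝ).IsHermitian := by
  rw [Matrix.IsHermitian, Matrix.conjTranspose_eq_transpose_of_trivial]
  exact G.isSymm_adjMatrix

open Classical in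
/-- The eigenvalues of the adjacency matrix of a finite graph, listed with multiplicity. -/
noncomputable def eig {V : Type*} [Fintype V] (G : SimpleGraph V) : V → ℝ :=
  (herm G).eigenvalues

/-- The positive square energy `s⁺`: the sum of the squares of the positive eigenvalues. -/
noncomputable def sPlus {V : Type*} [Fintype V] (G : SimpleGraph V) : ℝ :=
  ∑ i, if 0 < eig G i then eig G i ^ 2 else 0

/-- The negative square energy `s⁻`: the sum of the squares of the negative eigenvalues. -/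
noncomputable def sMinus {V : Type*} [Fintype V] (G : SimpleGraph V) : ℝ :=
  ∑ i, if eig G i < 0 then eig G i ^ 2 else 0

/-- The number of edges with both ends in the vertex set `W`. -/
noncomputable def spanned {V : Type*} (G : SimpleGraph V) (W : Set V) : ℕ :=
  {e | e ∈ G.edgeSet ∧ ∀ v ∈ e, v ∈ W}.ncard

open Classical in
lemma sPlus_eq {V : Type*} [Fintype V] (G : SimpleGraph V) :
    sPlus G = ∑ i, (max ((herm G).eigenvalues i) 0) ^ 2 :=
  sq_plus G (herm G)

open Classical in
lemma sMinus_eq {V : Type*} [Fintype V] (G : SimpleGraph V) :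
    sMinus G = ∑ i, (min ((herm G).eigenvalues i) 0) ^ 2 :=
  sq_minus G (herm G)

lemma total {V : Type*} [Fintype V] (G : SimpleGraph V) :
    sPlus G + sMinus G = 2 * (G.edgeSet.ncard : ℝ) := by
  classical
  rw [sPlus_eq, sMinus_eq, sum_sq, sum_adj, Set.ncard_eq_toFinset_card']
  rfl

/-- the general inequality -/
lemma sparse {V : Type*} [Fintype V] (G : SimpleGraph V) (k : ℕ) (hk : 1 ≤ k)
    (hW : ∀ W : Set V, spanned G W ≤ k * W.ncard) :
    4 * (G.edgeSet.ncard : ℝ) ^ 2 ≤ sPlus G *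
      ((3 + 2 * √(k : ℝ)) * G.edgeSet.ncard + k * Fintype.card V) := by
  classical
  have h1 := orient_bound G (herm G) k hk (fun W => by
    have h2 := hW W
    unfold spanned at h2
    rw [Set.ncard_eq_toFinset_card', Set.ncard_eq_toFinset_card'] at h2
    refine le_trans (le_of_eq ?_) (h2.trans (le_of_eq ?_))
    · congr 1
      ext e
      simp
    · congr 2
      ext v
      simp)
  have h3 : (G.edgeFinset.card : ℝ) = G.edgeSet.ncard := by
    rw [Set.ncard_eq_toFinset_card']
    rfl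
  rw [h3] at h1
  rw [sPlus_eq]
  exact h1

/-- Let `G` be a graph with `n` vertices and `m` edges in which every vertex set `W` spans at most
`k |W|` edges (`k ≥ 1`).  Then `4 m² ≤ s⁺ ((3 + 2√k) m + k n)`.  In particular, if `k = 3`, `n ≥ 3`
and `m = 3 n - 6` (as in maximal planar graphs), then `s⁺ ≥ 1.6 (n - 2) - 0.4` and
`s⁻ ≤ 4.4 (n - 2) + 0.4`. -/
theorem result {V : Type*} [Fintype V] (G : SimpleGraph V) (n m k : ℕ) (hn : Fintype.card V = n)
    (hm : G.edgeSet.ncard = m) (hk : 1 ≤ k) (hW : ∀ W : Set V, spanned G W ≤ k * W.ncard) :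
    4 * (m : ℝ) ^ 2 ≤ sPlus G * ((3 + 2 * √(k : ℝ)) * m + k * n) ∧
    (k = 3 → 3 ≤ n → m + 6 = 3 * n →
      1.6 * ((n : ℝ) - 2) - 0.4 ≤ sPlus G ∧ sMinus G ≤ 4.4 * ((n : ℝ) - 2) + 0.4) := by
  subst hn hm
  have h1 := sparse G k hk hW
  refine ⟨h1, ?_⟩
  rintro rfl hn3 hm
  have h2 : √(((3 : ℕ) : ℝ)) ≤ 1.7321 := by
    rw [Real.sqrt_le_left (by norm_num)]
    norm_num
  have hmr : (G.edgeSet.ncard : ℝ) + 6 = 3 * (Fintype.card V : ℝ) := by exact_mod_cast hm
  have hnr : (3 : ℝ) ≤ Fintype.card V := by exact_mod_cast hn3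
  have hS : 0 ≤ sPlus G := by
    rw [sPlus_eq]
    exact Finset.sum_nonneg fun i _ => sq_nonneg _
  obtain ⟨N, hN⟩ : ∃ N : ℝ, N = (Fintype.card V : ℝ) - 2 := ⟨_, rfl⟩
  have hN1 : 1 ≤ N := by linarith
  have e1 : (G.edgeSet.ncard : ℝ) = 3 * N := by linarith
  have e2 : (Fintype.card V : ℝ) = N + 2 := by linarith
  have h3 := total G
  have key : 1.6 * N - 0.4 ≤ sPlus G := by
    rw [e1, e2] at h1
    have h4 : sPlus G * ((3 + 2 * √(((3 : ℕ) : ℝ))) * (3 * N) + ((3 : ℕ) : ℝ) * (N + 2))
        ≤ sPlus G * (22.3926 * N + 6) := by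
      refine mul_le_mul_of_nonneg_left ?_ hS
      push_cast
      nlinarith
    have h5 := h1.trans h4
    have h6 : (1.6 * N - 0.4) * (22.3926 * N + 6) ≤ 4 * (3 * N) ^ 2 := by
      nlinarith [sq_nonneg (N - 2)]
    exact le_of_mul_le_mul_right (h6.trans h5) (by positivity)
  refine ⟨by rw [← hN]; exact key, ?_⟩
  rw [e1] at h3
  rw [← hN]
  linarith

end Pool.Agent.Results.MP_c36330_co.SparseLowerBound
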